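import Pool.Agent.helper51.VF.SpecC

set_option autoImplicit false

namespace Pool.Agent.VF

open Pool.Agent.PC Pool.Agent.QS

universe u

theorem MNF_aux (hCRF : CRF_stmt.{u}) (hSML : QS.SML_stmt.{u}) (hLCF : QS.LCF_stmt.{u})
    (hKDI : QS.KDI_stmt.{u}) (hTBF : QS.TBF_stmt.{u}) (hFTR : FTR_stmt.{u})
    (k R A F K : Type u) [Field k] [IsAlgClosed k] [CommRing R] [IsDomain R] [CommRing A] [IsDomain A]
    [Algebra k R] [Algebra k A] [Algebra R A] [IsScalarTower k R A] [FaithfulSMul R A] [Field F]
    [Field K] [Algebra k F] [Algebra k K] [Algebra R F] [IsFractionRing R F] [Algebra A K]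
    [IsFractionRing A K] [Algebra F K] [Algebra R K] [IsScalarTower k R F] [IsScalarTower k A K]
    [IsScalarTower k F K] [IsScalarTower R A K] [IsScalarTower R F K] [Algebra.Smooth k A]
    [IsIntegrallyClosed R] [Algebra.IsIntegral R A] (n p : ℕ) [Fact p.Prime] [CharP k p]
    (h3 : 3 * n * (n - 1) < 2 * p) (hdim : ringKrullDim A = n) (hFol : Fol p R A F K)
    (S : Ideal R) (B : Ideal R → ℚ) (hplt : PltPair.IsPlt k F R n S B) :
    IsIntegrallyClosed (R ⧸ S) := by
  rcases Nat.lt_or_ge n 2 with hn | hn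
  · refine hSML R A ?_ S hplt.1.1 hplt.1.2.1
    rw [hdim]
    exact_mod_cast (by omega : n ≤ 1)
  · have hftR : Algebra.FiniteType k R := hFTR k R A
    have h1 : Algebra.EssFiniteType R F := Algebra.EssFiniteType.of_isLocalization F (nonZeroDivisors R)
    have h2 : Algebra.EssFiniteType k F := Algebra.EssFiniteType.comp k R F
    have hfin : FiniteDimensional F K := by
      apply FiniteDimensional.of_finrank_pos
      rw [hFol.2]
      exact (Fact.out : p.Prime).pos
    have halg : Algebra.IsAlgebraic F K := inferInstance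
    obtain ⟨⟨x, hx⟩, -, -⟩ := hLCF k A K n hdim
    obtain ⟨x', hx'⟩ := hTBF k F K n x hx
    have hfr := (hKDI k F n x' hx').2
    exact hCRF k R A F K n p hn h3 hdim hFol S B ((BR_plt (by omega) hfr S B).1 hplt)

/-- **MNF** -/
theorem MNF (hCRF : CRF_stmt.{u}) (hHOM : HOM_stmt.{u}) (hSML : QS.SML_stmt.{u})
    (hLCF : QS.LCF_stmt.{u}) (hKDI : QS.KDI_stmt.{u}) (hTBF : QS.TBF_stmt.{u})
    (hFTR : FTR_stmt.{u}) : MNF_stmt.{u} := by
  intro n p hp h3 k _ _ _ A _ _ _ _ hdim R hRc hRp hrank S B hplt
  have : Fact p.Prime := ⟨hp⟩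
  have hinj : Function.Injective (algebraMap R A) := Subtype.val_injective
  have : FaithfulSMul R A := (faithfulSMul_iff_algebraMap_injective R A).2 hinj
  have hRp' : ∀ a : A, ∃ r : R, algebraMap R A r = a ^ p := fun a => ⟨⟨a ^ p, hRp a⟩, rfl⟩
  obtain ⟨hint, -⟩ := hHOM R A p hp.pos hRp'
  let _ : Algebra (FractionRing R) (FractionRing A) := FractionRing.liftAlgebra R (FractionRing A)
  have h1 : IsScalarTower R (FractionRing R) (FractionRing A) := FractionRing.isScalarTower_liftAlgebra R _
  have h2 : IsScalarTower k (FractionRing R) (FractionRing A) := by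
    refine IsScalarTower.of_algebraMap_eq fun c => ?_
    rw [IsScalarTower.algebraMap_apply k R (FractionRing R), ← IsScalarTower.algebraMap_apply R (FractionRing R),
      IsScalarTower.algebraMap_apply R A (FractionRing A), ← IsScalarTower.algebraMap_apply k R A,
      ← IsScalarTower.algebraMap_apply k A (FractionRing A)]
  have hFol : Fol p R A (FractionRing R) (FractionRing A) := by
    refine ⟨hRp', ?_⟩
    rw [← hrank]
    exact IsFractionRing.finrank_eq R (FractionRing R) A (FractionRing A)
  exact MNF_aux hCRF hSML hLCF hKDI hTBF hFTR k R A (FractionRing R) (FractionRing A) n p h3 hdim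
    hFol S B hplt

end Pool.Agent.VF
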