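import Pool.Agent.helper51.VF.SpecC

set_option autoImplicit false

namespace Pool.Agent.VF

open Pool.Agent.PC Pool.Agent.QS

universe u

section

variable {k A F K : Type u} [CommRing A] [Field F] [Field K] [Algebra A K] [Algebra F K]

/-- `x` lies in `A[1/f]`. -/
def SLF_L (f : A) (x : K) : Prop :=
  ∃ (a : A) (N : ℕ), x * algebraMap A K f ^ N = algebraMap A K a

theorem SLF_L_of (f a : A) : SLF_L f (algebraMap A K a) := ⟨a, 0, by rw [pow_zero, mul_one]⟩

theorem SLF_L_add {f : A} {x y : K} (hx : SLF_L f x) (hy : SLF_L f y) : SLF_L f (x + y) := by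
  obtain ⟨a, N, ha⟩ := hx
  obtain ⟨b, M, hb⟩ := hy
  refine ⟨a * f ^ M + b * f ^ N, N + M, ?_⟩
  rw [map_add, map_mul, map_mul, map_pow, map_pow, ← ha, ← hb]
  ring

theorem SLF_L_mul {f : A} {x y : K} (hx : SLF_L f x) (hy : SLF_L f y) : SLF_L f (x * y) := by
  obtain ⟨a, N, ha⟩ := hx
  obtain ⟨b, M, hb⟩ := hy
  refine ⟨a * b, N + M, ?_⟩
  rw [map_mul, ← ha, ← hb]
  ring

theorem SLF_L_neg {f : A} {x : K} (hx : SLF_L f x) : SLF_L f (-x) := by
  obtain ⟨a, N, ha⟩ := hx
  exact ⟨-a, N, by rw [map_neg, ← ha, neg_mul]⟩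

theorem SLF_L_pow {f : A} {x : K} (hx : SLF_L f x) (n : ℕ) : SLF_L f (x ^ n) := by
  induction n with
  | zero =>
    rw [pow_zero]
    have := SLF_L_of (K := K) f 1
    rwa [map_one] at this
  | succ n ih =>
    rw [pow_succ]
    exact SLF_L_mul ih hx

theorem SLF_L_sum {f : A} {ι : Type*} (s : Finset ι) (x : ι → K) (h : ∀ i ∈ s, SLF_L f (x i)) :
    SLF_L f (∑ i ∈ s, x i) := by
  classical
  induction s using Finset.induction_on with
  | empty =>
    rw [Finset.sum_empty]
    have := SLF_L_of (K := K) f 0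
    rwa [map_zero] at this
  | insert i s his ih =>
    rw [Finset.sum_insert his]
    exact SLF_L_add (h i (Finset.mem_insert_self i s))
      (ih fun j hj => h j (Finset.mem_insert_of_mem hj))

theorem SLF_L_natInv [Field k] [Algebra k A] [Algebra k K] [IsScalarTower k A K] (f : A) (n : ℕ) :
    SLF_L f ((n : K)⁻¹) := by
  have h := SLF_L_of (K := K) f (algebraMap k A (n : k)⁻¹)
  rwa [← IsScalarTower.algebraMap_apply, map_inv₀, map_natCast] at h

theorem SLF_L_der {f : A} (δ : Derivation F K K)
    (hδ : ∀ a : A, ∃ b : A, algebraMap A K f * δ (algebraMap A K a) = algebraMap A K b)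
    {x : K} (hx : SLF_L f x) : SLF_L f (δ x) := by
  obtain ⟨a, N, ha⟩ := hx
  obtain ⟨b, hb⟩ := hδ a
  obtain ⟨c, hc⟩ := hδ f
  have e := congrArg δ ha
  rw [Derivation.leibniz, Derivation.leibniz_pow] at e
  simp only [smul_eq_mul, nsmul_eq_mul] at e
  refine ⟨f * b - (N : A) * (a * c), N + 2, ?_⟩
  rw [map_sub, map_mul, map_mul, map_mul, map_natCast, ← hb, ← hc, ← e, ← ha]
  rcases N with _ | N
  · simp
    ring
  · rw [Nat.add_sub_cancel]
    push_cast
    ring

theorem SLF_L_iter {f : A} (δ : Derivation F K K)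
    (hδ : ∀ a : A, ∃ b : A, algebraMap A K f * δ (algebraMap A K a) = algebraMap A K b)
    {x : K} (hx : SLF_L f x) (n : ℕ) : SLF_L f ((⇑δ)^[n] x) := by
  induction n with
  | zero => exact hx
  | succ n ih =>
    rw [Function.iterate_succ_apply']
    exact SLF_L_der δ hδ ih

theorem SLF_L_EE [Field k] [Algebra k A] [Algebra k K] [IsScalarTower k A K] {f : A} (p : ℕ)
    (δ : Derivation F K K)
    (hδ : ∀ a : A, ∃ b : A, algebraMap A K f * δ (algebraMap A K a) = algebraMap A K b)
    (u : A) {x : K} (hx : SLF_L f x) : SLF_L f (EE p δ (algebraMap A K u) x) := by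
  unfold EE
  refine SLF_L_sum _ _ fun l _ => SLF_L_mul (SLF_L_mul ?_ ?_) (SLF_L_iter δ hδ hx l)
  · exact SLF_L_natInv (k := k) f _
  · exact SLF_L_pow (SLF_L_neg (SLF_L_of f u)) l

end

/-- powers of an element outside the subfield of prime index are linearly independent -/
theorem SLF_indep {F K : Type u} [Field F] [Field K] [Algebra F K] (p : ℕ) (hp : p.Prime)
    (hrank : Module.finrank F K = p) (u : K) (hu : ∀ y : F, algebraMap F K y ≠ u)
    (c : Fin p → F) (hc : ∑ i, algebraMap F K (c i) * u ^ (i : ℕ) = 0) : c = 0 := by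
  have hfin : FiniteDimensional F K := by
    apply FiniteDimensional.of_finrank_pos
    rw [hrank]
    exact hp.pos
  have hint : IsIntegral F u := Algebra.IsIntegral.isIntegral u
  have h1 : (minpoly F u).natDegree = p := by
    have h2 : Module.finrank F (IntermediateField.adjoin F {u}) ∣ p := by
      rw [← hrank]
      exact ⟨_, (Module.finrank_mul_finrank F (IntermediateField.adjoin F {u}) K).symm⟩
    rw [IntermediateField.adjoin.finrank hint] at h2
    rcases (Nat.dvd_prime hp).1 h2 with h3 | h3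
    · exfalso
      obtain ⟨y, hy⟩ := minpoly.mem_range_of_degree_eq_one F u
        (by rw [Polynomial.degree_eq_natDegree (minpoly.ne_zero hint), h3]; rfl)
      exact hu y hy
    · exact h3
  have h4 := linearIndependent_pow (K := F) u
  rw [h1] at h4
  rw [Fintype.linearIndependent_iff] at h4
  funext i
  apply h4 c
  rw [← hc]
  exact Finset.sum_congr rfl fun i _ => Algebra.smul_def _ _

/-- **SLF** -/
theorem SLF (hFDR : FDR_stmt.{u}) (hPCL : PCL_stmt.{u}) (hSLC : SLC_stmt.{u})
    (hCAP : CAP_stmt.{u}) (hFTR : FTR_stmt.{u}) (hFSD : FSD_stmt.{u}) : SLF_stmt.{u} := by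
  intro k R A F K _ _ _ _ _ _ _ _ _ _ _ _ _ _ _ _ _ _ _ _ _ _ _ _ _ _ _ _ p _ _ hFol Q δ u f hsl
    h hh hhf R' _ _ _ _ _
  obtain ⟨hfQ, hδu, hδ⟩ := hsl
  obtain ⟨hpow, hrank⟩ := hFol
  have hp : p.Prime := Fact.out
  have hδ0 : δ ≠ 0 := by
    rintro rfl
    rw [Derivation.zero_apply] at hδu
    exact zero_ne_one hδu
  have hAK : Function.Injective (algebraMap A K) := IsFractionRing.injective A K
  have hRF : Function.Injective (algebraMap R F) := IsFractionRing.injective R F
  have hFK : Function.Injective (algebraMap F K) := (algebraMap F K).injective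
  have hf0 : f ≠ 0 := by
    rintro rfl
    exact hfQ Q.zero_mem
  have hfK : algebraMap A K f ≠ 0 := fun h0 => hf0 (hAK (by rw [h0, map_zero]))
  have hhF : algebraMap R F h ≠ 0 := fun h0 => hh (hRF (by rw [h0, map_zero]))
  have hKp : ∀ x : K, ∃ y : F, algebraMap F K y = x ^ p := by
    intro x
    obtain ⟨a, b, hb, rfl⟩ := IsFractionRing.div_surjective (A := A) x
    obtain ⟨r, hr⟩ := hpow a
    obtain ⟨s, hs⟩ := hpow b
    refine ⟨algebraMap R F r / algebraMap R F s, ?_⟩
    rw [map_div₀, ← IsScalarTower.algebraMap_apply, ← IsScalarTower.algebraMap_apply,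
      IsScalarTower.algebraMap_apply R A K, IsScalarTower.algebraMap_apply R A K, hr, hs, map_pow,
      map_pow, div_pow]
  obtain ⟨g, hg⟩ := hPCL F K p hrank hKp δ hδ0
  obtain ⟨-, hE1, hE2⟩ := hSLC F K p δ (algebraMap A K u) _ hg hδu
  have hconst := (hFDR F K p hrank hKp).2.2 δ hδ0
  -- the maps
  have hiF : IsUnit (algebraMap R F h) := isUnit_iff_ne_zero.2 hhF
  let χ : R' →+* F := IsLocalization.Away.lift h hiF
  have hχ : ∀ r : R, χ (algebraMap R R' r) = algebraMap R F r := fun r =>
    IsLocalization.Away.lift_eq h hiF r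
  let A' := Localization.Away (algebraMap R A h)
  have hhK : algebraMap A K (algebraMap R A h) ≠ 0 := by
    rw [hhf, map_pow]
    exact pow_ne_zero p hfK
  have hhK' : algebraMap A K (algebraMap R A h) = algebraMap A K f ^ p := by
    rw [hhf, map_pow]
  have hiK : IsUnit (algebraMap A K (algebraMap R A h)) := isUnit_iff_ne_zero.2 hhK
  let ψ : A' →+* K := IsLocalization.Away.lift (algebraMap R A h) hiK
  have hψ : ∀ a : A, ψ (algebraMap A A' a) = algebraMap A K a := fun a =>
    IsLocalization.Away.lift_eq (algebraMap R A h) hiK a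
  have hiA : IsUnit (((algebraMap A A').comp (algebraMap R A)) h) := by
    rw [RingHom.comp_apply]
    exact IsLocalization.map_units A' (⟨_, Submonoid.mem_powers _⟩ :
      Submonoid.powers (algebraMap R A h))
  let φ : R' →+* A' := IsLocalization.Away.lift h hiA
  have hφ : ∀ r : R, φ (algebraMap R R' r) = algebraMap A A' (algebraMap R A r) := fun r =>
    IsLocalization.Away.lift_eq h hiA r
  have hψφ : ∀ r : R', ψ (φ r) = algebraMap F K (χ r) := by
    have e : ψ.comp φ = (algebraMap F K).comp χ := by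
      refine IsLocalization.ringHom_ext (Submonoid.powers h) ?_
      ext r
      simp only [RingHom.comp_apply]
      rw [hφ, hψ, hχ, ← IsScalarTower.algebraMap_apply, ← IsScalarTower.algebraMap_apply]
    exact fun r => RingHom.congr_fun e r
  have hsur : ∀ x : A', ∃ (a : A) (N : ℕ),
      x * algebraMap A A' (algebraMap R A h) ^ N = algebraMap A A' a := by
    intro x
    obtain ⟨⟨a, s⟩, hs⟩ := IsLocalization.surj (Submonoid.powers (algebraMap R A h)) x
    obtain ⟨N, hN⟩ := s.2
    refine ⟨a, N, ?_⟩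
    rw [← map_pow]
    have hN' : algebraMap R A h ^ N = (s : A) := hN
    rw [hN']
    exact hs
  have hψinj : Function.Injective ψ := by
    rw [injective_iff_map_eq_zero]
    intro x hx
    obtain ⟨a, N, ha⟩ := hsur x
    have e := congrArg ψ ha
    rw [map_mul, hx, zero_mul, hψ] at e
    have ha0 : a = 0 := hAK (by rw [← e, map_zero])
    rw [ha0, map_zero] at ha
    have hu' : IsUnit (algebraMap A A' (algebraMap R A h) ^ N) := hiA.pow N
    exact (IsUnit.mul_left_eq_zero hu').1 ha
  have hψL : ∀ x : A', SLF_L f (ψ x) := by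
    intro x
    obtain ⟨a, N, ha⟩ := hsur x
    refine ⟨a, p * N, ?_⟩
    have e := congrArg ψ ha
    rw [map_mul, map_pow, hψ, hψ, hhK', ← pow_mul] at e
    exact e
  have hχL : ∀ y : F, SLF_L f (algebraMap F K y) → ∃ r : R', χ r = y := by
    rintro y ⟨a, N, ha⟩
    obtain ⟨q, hq⟩ : ∃ q, p = q + 1 := ⟨p - 1, (Nat.succ_pred_eq_of_pos hp.pos).symm⟩
    have e1 : algebraMap F K (y * algebraMap R F h ^ N) = algebraMap A K (a * f ^ (q * N)) := by
      rw [map_mul, map_mul, map_pow, map_pow, ← IsScalarTower.algebraMap_apply,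
        IsScalarTower.algebraMap_apply R A K, hhf, map_pow, ← ha, hq, ← pow_mul]
      ring
    obtain ⟨r, hr⟩ := hCAP R A F K _ _ e1
    have e2 : y * algebraMap R F h ^ N = algebraMap R F r := by
      apply hFK
      rw [e1, ← hr, ← IsScalarTower.algebraMap_apply, ← IsScalarTower.algebraMap_apply]
    have hmem : h ^ N ∈ Submonoid.powers h := ⟨N, rfl⟩
    refine ⟨IsLocalization.mk' R' r (⟨h ^ N, hmem⟩ : Submonoid.powers h), ?_⟩
    have e3 := congrArg χ (IsLocalization.mk'_spec R' r (⟨h ^ N, hmem⟩ : Submonoid.powers h))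
    rw [map_mul, hχ, hχ, ← e2, map_pow] at e3
    exact mul_right_cancel₀ (pow_ne_zero N hhF) e3
  -- the basis
  let _ : Algebra R' A' := φ.toAlgebra
  have halg : ∀ r : R', algebraMap R' A' r = φ r := fun r => rfl
  have htow : IsScalarTower k R' A' := by
    refine IsScalarTower.of_algebraMap_eq fun c => ?_
    rw [halg, IsScalarTower.algebraMap_apply k R R', hφ, ← IsScalarTower.algebraMap_apply k R A,
      ← IsScalarTower.algebraMap_apply k A A']
  obtain ⟨α, hα⟩ := hpow u
  have hsmA : Algebra.Smooth A A' := Algebra.Smooth.of_isLocalization_Away (algebraMap R A h)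
  have hsm : Algebra.Smooth k A' := Algebra.Smooth.comp k A A'
  have hfs : Algebra.FormallySmooth k R' := by
    refine hFSD k R' A' p (algebraMap A A' u) (algebraMap R R' α) hp.pos ?_ ?_ ?_ hsm.formallySmooth
    · rw [halg, hφ, hα, map_pow]
    · intro x
      have hx := hE2 (ψ x)
      have hy : ∀ i : ℕ, ∃ r : R', algebraMap F K (χ r) =
          ((i.factorial : ℕ) : K)⁻¹ * EE p δ (algebraMap A K u) ((⇑δ)^[i] (ψ x)) := by
        intro i
        have hL : SLF_L f (((i.factorial : ℕ) : K)⁻¹ *
            EE p δ (algebraMap A K u) ((⇑δ)^[i] (ψ x))) :=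
          SLF_L_mul (SLF_L_natInv (k := k) f _)
            (SLF_L_EE (k := k) p δ hδ u (SLF_L_iter δ hδ (hψL x) i))
        obtain ⟨y, hy⟩ := hconst _ (hE1 ((⇑δ)^[i] (ψ x)))
        have e : ((i.factorial : ℕ) : K)⁻¹ * EE p δ (algebraMap A K u) ((⇑δ)^[i] (ψ x)) =
            algebraMap F K (((i.factorial : ℕ) : F)⁻¹ * y) := by
          rw [map_mul, map_inv₀, map_natCast, hy]
        rw [e] at hL ⊢
        obtain ⟨r, hr⟩ := hχL _ hL
        exact ⟨r, by rw [hr]⟩
      choose r hr using hy
      refine ⟨fun i => r i, hψinj ?_⟩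
      rw [map_sum, hx, Finset.sum_range]
      refine Finset.sum_congr rfl fun i _ => ?_
      rw [map_mul, halg, hψφ, hr, map_pow, hψ]
      ring
    · intro r hr
      have e := congrArg ψ hr
      rw [map_sum, map_zero] at e
      have e1 : (fun i => χ (r i)) = 0 := by
        refine SLF_indep p hp hrank (algebraMap A K u) ?_ _ ?_
        · intro y hy
          rw [← hy, Derivation.map_algebraMap] at hδu
          exact zero_ne_one hδu
        · rw [← e]
          refine Finset.sum_congr rfl fun i _ => ?_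
          rw [map_mul, halg, hψφ, map_pow, hψ]
      funext i
      have e2 : χ (r i) = 0 := congrFun e1 i
      -- `χ` is injective
      obtain ⟨⟨b, s⟩, hs⟩ := IsLocalization.surj (Submonoid.powers h) (r i)
      have e3 := congrArg χ hs
      rw [map_mul, e2, zero_mul, hχ] at e3
      have hb0 : b = 0 := hRF (by rw [← e3, map_zero])
      have hs' : r i * algebraMap R R' (s : R) = algebraMap R R' b := hs
      rw [hb0, map_zero] at hs'
      exact (IsUnit.mul_left_eq_zero (IsLocalization.map_units R' s)).1 hs'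
  -- finite presentation
  have hftA : Algebra.FiniteType k A := inferInstance
  have hft : Algebra.FiniteType k R := hFTR k R A
  have hfp : Algebra.FinitePresentation k R := Algebra.FinitePresentation.of_finiteType.1 hft
  have hfp' : Algebra.FinitePresentation R R' := IsLocalization.Away.finitePresentation h
  exact ⟨hfs, Algebra.FinitePresentation.trans k R R'⟩

end Pool.Agent.VF
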